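import Pool.Agent.Lib.MP_28303a_al.NT.EX.Defs
import Pool.Agent.Lib.MP_28303a_al.WR.H48.Pswap
import Pool.Agent.Lib.MP_28303a_al.WR.H12.Preg
import Pool.Agent.Lib.MP_28303a_al.TW.H19.Vgen

/-! # Row BAS: the universal property of the negative K-groups -/

set_option autoImplicit false
set_option linter.unusedSectionVars false
set_option linter.unusedVariables false

namespace Pool.Agent.NegK.NT.EX47

universe u

open MonoidAlgebra
open Pool.Agent.NegK.TW Pool.Agent.NegK.NT.EX
open WR.H48 (pswapEquiv pswapEquiv_single)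
open TW.H19 (fun_hom_hom)

theorem cmap_mdr {k k' G H : Type u} [Ring k] [Ring k'] [Group G] [Group H] (φ : k →+* k')
    (f : G →* H) : (cmap H φ).comp (mdr k f) = (mdr k' f).comp (cmap G φ) := by
  refine MonoidAlgebra.ringHom_ext (fun r => ?_) (fun g => ?_)
  · simp only [RingHom.comp_apply, cmap_single, mdr_single]
  · simp only [RingHom.comp_apply, cmap_single, mdr_single]

/-- The inclusion of the polynomials. -/
theorem swp_pos (k : Type u) [Ring k] (G : Type u) [Group G] :
    (swp k G).comp (cmap G (posMap k)) = (posMap (MonoidAlgebra k G)).comp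
      (pswapEquiv k G : MonoidAlgebra (Polynomial k) G →+* Polynomial (MonoidAlgebra k G)) := by
  have key : ∀ (g : G) (n : ℕ) (r : k), swp k G (cmap G (posMap k)
      (single g (Polynomial.monomial n r))) =
      posMap (MonoidAlgebra k G) (pswapEquiv k G (single g (Polynomial.monomial n r))) := by
    intro g n r
    rw [cmap_single, pswapEquiv_single]
    have h1 : posMap k (Polynomial.monomial n r) = AddMonoidAlgebra.single (n : ℤ) r :=
      (Polynomial.toLaurent_C_mul_T n r).trans (LaurentPolynomial.single_eq_C_mul_T r (n : ℤ)).symm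
    have h2 : posMap (MonoidAlgebra k G) (Polynomial.monomial n (single g r)) =
      AddMonoidAlgebra.single (n : ℤ) (single g r) :=
      (Polynomial.toLaurent_C_mul_T n _).trans (LaurentPolynomial.single_eq_C_mul_T _ (n : ℤ)).symm
    rw [h1, h2]
    exact swap_single k g n r
  have key2 : ∀ (g : G) (p : Polynomial k), swp k G (cmap G (posMap k) (single g p)) =
      posMap (MonoidAlgebra k G) (pswapEquiv k G (single g p)) := by
    intro g p
    induction p using Polynomial.induction_on' with
    | add p q hp hq =>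
      rw [MonoidAlgebra.single_add, map_add, map_add, map_add, map_add, hp, hq]
    | monomial n r => exact key g n r
  refine MonoidAlgebra.ringHom_ext (fun r => ?_) (fun a => ?_)
  · exact key2 1 r
  · exact key2 a 1

/-- The involution. -/
theorem swp_inv (k : Type u) [Ring k] (G : Type u) [Group G] :
    (swp k G).comp (cmap G (invMap k)) = (invMap (MonoidAlgebra k G)).comp (swp k G) := by
  have key : ∀ (g : G) (x : LaurentPolynomial k), swp k G (cmap G (invMap k) (single g x)) =
      invMap (MonoidAlgebra k G) (swp k G (single g x)) := by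
    intro g x
    induction x using AddMonoidAlgebra.induction_linear with
    | zero => simp only [MonoidAlgebra.single_zero, map_zero]
    | add x y hx hy => rw [MonoidAlgebra.single_add, map_add, map_add, map_add, map_add, hx, hy]
    | single n r =>
      have h1 : ∀ (A : Type u) [Ring A] (a : A), invMap A (AddMonoidAlgebra.single n a) =
          AddMonoidAlgebra.single (-n) a := by
        intro A _ a
        show AddMonoidAlgebra.mapDomain (⇑(-AddMonoidHom.id ℤ)) (AddMonoidAlgebra.single n a) = _
        rw [AddMonoidAlgebra.mapDomain_single]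
        rfl
      rw [cmap_single, h1]
      have h2 : swp k G (single g (AddMonoidAlgebra.single (-n) r)) =
        AddMonoidAlgebra.single (-n) (single g r) := swap_single k g (-n) r
      have h3 : swp k G (single g (AddMonoidAlgebra.single n r)) =
        AddMonoidAlgebra.single n (single g r) := swap_single k g n r
      rw [h2, h3, h1]
  refine MonoidAlgebra.ringHom_ext (fun r => ?_) (fun a => ?_)
  · exact key 1 r
  · exact key a 1

theorem swp_neg (k : Type u) [Ring k] (G : Type u) [Group G] :
    (swp k G).comp (cmap G (negMap k)) = (negMap (MonoidAlgebra k G)).comp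
      (pswapEquiv k G : MonoidAlgebra (Polynomial k) G →+* Polynomial (MonoidAlgebra k G)) := by
  unfold negMap
  rw [← H89.cmap_comp, ← RingHom.comp_assoc, swp_inv, RingHom.comp_assoc, swp_pos,
    RingHom.comp_assoc]

section

variable (F : RFun.{u}) (k : Type u) [Ring k]

/-- The map to the next K-group. -/
noncomputable def th (H : Type u) [Group H] :
    F.obj (LG k H) →+ F.bass.obj (MonoidAlgebra k H) :=
  (QuotientAddGroup.mk' (F.polySub (MonoidAlgebra k H))).comp (F.hom (swp k H))

theorem th_nat {H H' : Type u} [Group H] [Group H'] (f : H →* H') (y : F.obj (LG k H)) :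
    F.bass.hom (mdr k f) (th F k H y) = th F k H' (F.hom (mdr (LaurentPolynomial k) f) y) := by
  show QuotientAddGroup.mk' _ (F.hom (lmap (mdr k f)) (F.hom (swp k H) y)) =
    QuotientAddGroup.mk' _ (F.hom (swp k H') (F.hom (mdr (LaurentPolynomial k) f) y))
  rw [fun_hom_hom, fun_hom_hom, ← swap_natural]

theorem th_surj (H : Type u) [Group H] : Function.Surjective (th F k H) := by
  intro x
  obtain ⟨z, rfl⟩ := QuotientAddGroup.mk'_surjective (F.polySub (MonoidAlgebra k H)) x
  refine ⟨F.hom ((H64.swapEquiv k H).symm : LaurentPolynomial (MonoidAlgebra k H) →+* LG k H) z,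
    ?_⟩
  show QuotientAddGroup.mk' _ (F.hom (swp k H) (F.hom
    ((H64.swapEquiv k H).symm : LaurentPolynomial (MonoidAlgebra k H) →+* LG k H) z)) = _
  rw [fun_hom_hom]
  have h6 : (swp k H).comp ((H64.swapEquiv k H).symm :
      LaurentPolynomial (MonoidAlgebra k H) →+* LG k H) = RingHom.id _ :=
    RingHom.ext fun a => (H64.swapEquiv k H).apply_symm_apply a
  rw [h6, F.hom_id]
  rfl

theorem th_pos (H : Type u) [Group H] (f : Polynomial k →+* LaurentPolynomial k)
    (hf : f = posMap k ∨ f = negMap k) (y : F.obj (MonoidAlgebra (Polynomial k) H)) :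
    th F k H (F.hom (cmap H f) y) = 0 := by
  refine (QuotientAddGroup.eq_zero_iff _).2 ?_
  rw [fun_hom_hom]
  rcases hf with rfl | rfl
  · refine AddSubgroup.mem_sup_left ⟨F.hom (pswapEquiv k H : MonoidAlgebra (Polynomial k) H →+*
      Polynomial (MonoidAlgebra k H)) y, ?_⟩
    rw [fun_hom_hom, ← swp_pos]
  · refine AddSubgroup.mem_sup_right ⟨F.hom (pswapEquiv k H : MonoidAlgebra (Polynomial k) H →+*
      Polynomial (MonoidAlgebra k H)) y, ?_⟩
    rw [fun_hom_hom, ← swp_neg]

/-- A homomorphism which vanishes on the polynomials descends. -/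
theorem th_desc (H : Type u) [Group H] {G : Type u} [AddCommGroup G] (Ψ : F.obj (LG k H) →+ G)
    (h : ∀ f : Polynomial k →+* LaurentPolynomial k, f = posMap k ∨ f = negMap k →
      ∀ y, Ψ (F.hom (cmap H f) y) = 0) :
    ∃ Ψ' : F.bass.obj (MonoidAlgebra k H) →+ G, ∀ y, Ψ' (th F k H y) = Ψ y := by
  let s : LaurentPolynomial (MonoidAlgebra k H) →+* LG k H := (H64.swapEquiv k H).symm
  have hs : s.comp (swp k H) = RingHom.id _ :=
    RingHom.ext fun a => (H64.swapEquiv k H).symm_apply_apply a
  let p : Polynomial (MonoidAlgebra k H) →+* MonoidAlgebra (Polynomial k) H :=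
    (pswapEquiv k H).symm
  have hp : (pswapEquiv k H : MonoidAlgebra (Polynomial k) H →+*
      Polynomial (MonoidAlgebra k H)).comp p = RingHom.id _ :=
    RingHom.ext fun a => (pswapEquiv k H).apply_symm_apply a
  have key : F.polySub (MonoidAlgebra k H) ≤ (Ψ.comp (F.hom s)).ker := by
    refine sup_le ?_ ?_
    · rintro _ ⟨x, rfl⟩
      show Ψ (F.hom s (F.hom (posMap (MonoidAlgebra k H)) x)) = 0
      have h1 : s.comp (posMap (MonoidAlgebra k H)) = (cmap H (posMap k)).comp p := by
        have h2 : (posMap (MonoidAlgebra k H)) = (swp k H).comp ((cmap H (posMap k)).comp p) := by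
          rw [← RingHom.comp_assoc, swp_pos, RingHom.comp_assoc, hp, RingHom.comp_id]
        rw [h2, ← RingHom.comp_assoc, hs, RingHom.id_comp]
      rw [fun_hom_hom, h1, ← fun_hom_hom]
      exact h _ (Or.inl rfl) _
    · rintro _ ⟨x, rfl⟩
      show Ψ (F.hom s (F.hom (negMap (MonoidAlgebra k H)) x)) = 0
      have h1 : s.comp (negMap (MonoidAlgebra k H)) = (cmap H (negMap k)).comp p := by
        have h2 : (negMap (MonoidAlgebra k H)) = (swp k H).comp ((cmap H (negMap k)).comp p) := by
          rw [← RingHom.comp_assoc, swp_neg, RingHom.comp_assoc, hp, RingHom.comp_id]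
        rw [h2, ← RingHom.comp_assoc, hs, RingHom.id_comp]
      rw [fun_hom_hom, h1, ← fun_hom_hom]
      exact h _ (Or.inr rfl) _
  refine ⟨QuotientAddGroup.lift (F.polySub (MonoidAlgebra k H)) (Ψ.comp (F.hom s)) key,
    fun y => ?_⟩
  show (Ψ.comp (F.hom s)) (F.hom (swp k H) y) = Ψ y
  show Ψ (F.hom s (F.hom (swp k H) y)) = Ψ y
  rw [fun_hom_hom, hs, F.hom_id]
  rfl

end

/-- Row BAS. -/
theorem bas : BasStatement.{u} := by
  intro Γ _ X _ Adj h n
  induction n with
  | zero => exact h
  | succ n ih =>
    intro k _ hk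
    have hL : RegularRing (LaurentPolynomial k) := H78.lreg H50.ext k hk
    have hP : RegularRing (Polynomial k) := WR.H12p.preg k hk
    refine ⟨H19.vgen (fun x : X => MulAction.stabilizer Γ x) (fun k _ hk => (h k hk).1) (n + 1) k
      hk, fun G _ Φ hΦ => ?_⟩
    let F := KNegFun n
    have hgen : GN F (Polynomial k) Γ X := (ih (Polynomial k) hP).1
    -- the family for the Laurent polynomials
    let Φ' : Fam F (LaurentPolynomial k) Γ X G :=
      { φ := fun x => (Φ.φ x).comp (th F k (MulAction.stabilizer Γ x))
        conj := fun g x y c hy hc z => by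
          show Φ.φ y (th F k _ (F.hom (mdr (LaurentPolynomial k) c) z)) = Φ.φ x (th F k _ z)
          rw [← th_nat]
          exact Φ.conj g x y c hy hc _ }
    obtain ⟨Ψ, hΨ⟩ := (ih (LaurentPolynomial k) hL).2 G Φ' (fun x y hxy z => by
      show Φ.φ x (th F k _ (F.hom (mdr (LaurentPolynomial k)
          (Subgroup.inclusion inf_le_left)) z)) =
        Φ.φ y (th F k _ (F.hom (mdr (LaurentPolynomial k) (Subgroup.inclusion inf_le_right)) z))
      rw [← th_nat, ← th_nat]
      exact hΦ x y hxy (th F k _ z))
    obtain ⟨Ψ', hΨ'⟩ := th_desc F k Γ Ψ (fun f hf y => by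
      have h1 : (⊤ : AddSubgroup (F.obj (MonoidAlgebra (Polynomial k) Γ))) ≤
          (Ψ.comp (F.hom (cmap Γ f))).ker := by
        rw [← hgen]
        refine iSup_le fun x => ?_
        rintro _ ⟨z, rfl⟩
        show Ψ (F.hom (cmap Γ f) (F.hom (mdr (Polynomial k)
          (MulAction.stabilizer Γ x).subtype) z)) = 0
        rw [fun_hom_hom, cmap_mdr, ← fun_hom_hom]
        refine (hΨ x _).trans ?_
        show Φ.φ x (th F k _ (F.hom (cmap _ f) z)) = 0
        rw [th_pos F k _ f hf]
        exact map_zero (Φ.φ x)
      exact h1 (AddSubgroup.mem_top y))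
    refine ⟨Ψ', fun x z => ?_⟩
    obtain ⟨y, rfl⟩ := th_surj F k (MulAction.stabilizer Γ x) z
    have h2 := th_nat F k (MulAction.stabilizer Γ x).subtype y
    refine (congrArg Ψ' h2).trans ?_
    rw [hΨ']
    exact hΨ x y

end Pool.Agent.NegK.NT.EX47
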