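import Pool.Agent.Lib.MP_28303a_al.NT.EX.Defs
import Pool.Agent.Lib.MP_28303a_al.TW.H19.Vgen

/-! # Rows INN and DSUM: inner automorphisms and the direct sum -/

set_option autoImplicit false
set_option linter.unusedSectionVars false
set_option linter.unusedVariables false

namespace Pool.Agent.NegK.NT.EX47

universe u

open MonoidAlgebra
open Pool.Agent.NegK.TW Pool.Agent.NegK.NT.EX
open TW.H19 (fun_hom_hom)

/-- Row INN. -/
theorem inn : InnStatement.{u} := by
  intro n
  induction n with
  | zero =>
    intro A _ u c hc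
    have h1 : K0.map c = K0.map (RingHom.id A) :=
      map_eq_of_conj (RingHom.id A) c (u : A) ((u⁻¹ : Aˣ) : A) u.inv_mul fun a => hc a
    show K0.map c = _
    rw [h1]
    exact K0Fun.hom_id
  | succ n ih =>
    intro A _ u c hc
    have h1 : (KNegFun n).hom (lmap c) = AddMonoidHom.id _ := by
      refine ih (LaurentPolynomial A) (Units.map (LaurentPolynomial.C : A →+* _).toMonoidHom u)
        (lmap c) fun x => ?_
      induction x using AddMonoidAlgebra.induction_linear with
      | zero => rw [map_zero, mul_zero, zero_mul]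
      | add x y hx hy => rw [map_add, hx, hy, mul_add, add_mul]
      | single m r =>
        show AddMonoidAlgebra.mapRingHom ℤ c (AddMonoidAlgebra.single m r) =
          AddMonoidAlgebra.single 0 (u : A) * AddMonoidAlgebra.single m r *
            AddMonoidAlgebra.single 0 ((u⁻¹ : Aˣ) : A)
        rw [AddMonoidAlgebra.mapRingHom_single, AddMonoidAlgebra.single_mul_single,
          AddMonoidAlgebra.single_mul_single, zero_add, add_zero, hc]
    refine QuotientAddGroup.addMonoidHom_ext _ (AddMonoidHom.ext fun x => ?_)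
    show QuotientAddGroup.mk' _ ((KNegFun n).hom (lmap c) x) = QuotientAddGroup.mk' _ x
    rw [h1]
    rfl

/-- Inner automorphisms of groups. -/
theorem inn_grp (n : ℕ) (k : Type u) [Ring k] {H : Type u} [Group H] (s : H) (c : H →* H)
    (hc : ∀ h, c h = s * h * s⁻¹) : (KNegFun n).hom (mdr k c) = AddMonoidHom.id _ := by
  let u : (MonoidAlgebra k H)ˣ := Units.map (MonoidAlgebra.of k H) (toUnits s)
  refine inn n (MonoidAlgebra k H) u (mdr k c) fun a => ?_
  have hu : (u : MonoidAlgebra k H) = single s 1 := rfl
  have hu' : ((u⁻¹ : (MonoidAlgebra k H)ˣ) : MonoidAlgebra k H) = single s⁻¹ 1 := rfl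
  rw [hu, hu']
  induction a using MonoidAlgebra.induction_linear with
  | zero => rw [map_zero, mul_zero, zero_mul]
  | add x y hx hy => rw [map_add, hx, hy, mul_add, add_mul]
  | single h r =>
    rw [mdr_single, hc, MonoidAlgebra.single_mul_single, MonoidAlgebra.single_mul_single, one_mul,
      mul_one]

section

variable (n : ℕ) (k : Type u) [Ring k] {Γ : Type u} [Group Γ] {X : Type u} [MulAction Γ X]

/-- The conjugation. -/
def cj (g : Γ) {x y : X} (h : y = g • x) :
    MulAction.stabilizer Γ x →* MulAction.stabilizer Γ y where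
  toFun s := ⟨g * s.1 * g⁻¹, by
    subst h
    rw [MulAction.mem_stabilizer_iff, mul_smul, mul_smul, inv_smul_smul, s.2]⟩
  map_one' := Subtype.ext (by simp)
  map_mul' s t := Subtype.ext (by simp [mul_assoc])

variable (rep : MulAction.orbitRel.Quotient Γ X → X)

/-- The group of the direct sum. -/
abbrev DS : Type u := DirectSum (MulAction.orbitRel.Quotient Γ X)
  fun o => KNeg n (MonoidAlgebra k (MulAction.stabilizer Γ (rep o)))

open Classical in
/-- The inclusion of a summand. -/
noncomputable abbrev io (o : MulAction.orbitRel.Quotient Γ X) :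
    KNeg n (MonoidAlgebra k (MulAction.stabilizer Γ (rep o))) →+ DS n k rep :=
  DirectSum.of (fun o => KNeg n (MonoidAlgebra k (MulAction.stabilizer Γ (rep o)))) o

open Classical in
/-- The map from the K-group of the stabilizer of a point. -/
noncomputable def ps (o : MulAction.orbitRel.Quotient Γ X) (x : X) (g : Γ)
    (h : rep o = g • x) :
    KNeg n (MonoidAlgebra k (MulAction.stabilizer Γ x)) →+ DS n k rep :=
  (io n k rep o).comp ((KNegFun n).hom (mdr k (cj g h)))

theorem ps_eq (hrep : ∀ o, Quotient.mk'' (rep o) = o) {o o' : MulAction.orbitRel.Quotient Γ X}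
    {x : X} {g g' : Γ} (h : rep o = g • x) (h' : rep o' = g' • x) (z) :
    ps n k rep o x g h z = ps n k rep o' x g' h' z := by
  classical
  have ho : ∀ {o : MulAction.orbitRel.Quotient Γ X} {g : Γ}, rep o = g • x →
      o = Quotient.mk'' x := by
    intro o g h
    rw [← hrep o]
    exact Quotient.sound' (MulAction.orbitRel_apply.2 (by
      rw [h]
      exact MulAction.mem_orbit x g))
  obtain rfl : o = o' := (ho h).trans (ho h').symm
  show io n k rep o ((KNegFun n).hom (mdr k (cj g h)) z) =
    io n k rep o ((KNegFun n).hom (mdr k (cj g' h')) z)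
  refine congrArg (io n k rep o) ?_
  let s : MulAction.stabilizer Γ (rep o) := ⟨g' * g⁻¹, by
    rw [MulAction.mem_stabilizer_iff, mul_smul]
    conv_lhs => rw [h]
    rw [inv_smul_smul, ← h']⟩
  let c : MulAction.stabilizer Γ (rep o) →* MulAction.stabilizer Γ (rep o) :=
    (MulAut.conj s).toMonoidHom
  have h1 : cj g' h' = c.comp (cj g h) := by
    refine MonoidHom.ext fun t => Subtype.ext ?_
    show g' * t.1 * g'⁻¹ = (g' * g⁻¹) * (g * t.1 * g⁻¹) * (g' * g⁻¹)⁻¹
    group
  rw [h1, ← mdr_comp_mdr, ← fun_hom_hom, inn_grp n k s c fun _ => rfl]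
  rfl

open Classical in
/-- Row DSUM. -/
theorem dsum : DsumStatement.{u} := by
  intro n k _ Γ _ X _ Adj hG hU hE rep hrep
  have hex : ∀ x : X, ∃ g : Γ, rep (Quotient.mk'' x) = g • x := by
    intro x
    have h1 := Quotient.exact' (hrep (Quotient.mk'' x))
    obtain ⟨g, hg⟩ := MulAction.orbitRel_apply.1 h1
    exact ⟨g, hg.symm⟩
  choose gg hgg using hex
  let Φ : Fam (KNegFun n) k Γ X (DS n k rep) :=
    { φ := fun x => ps n k rep (Quotient.mk'' x) x (gg x) (hgg x)
      conj := by
        intro g x y c hy hc z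
        subst hy
        have h1 : rep (Quotient.mk'' (g • x)) = (gg (g • x) * g) • x := by
          rw [mul_smul, ← hgg]
        refine Eq.trans ?_ (ps_eq n k rep hrep h1 (hgg x) z)
        show io n k rep _ ((KNegFun n).hom (mdr k (cj (gg (g • x)) (hgg (g • x))))
          ((KNegFun n).hom (mdr k c) z)) =
          io n k rep _ ((KNegFun n).hom (mdr k (cj (gg (g • x) * g) h1)) z)
        rw [fun_hom_hom, mdr_comp_mdr]
        have h2 : (cj (gg (g • x)) (hgg (g • x))).comp c = cj (gg (g • x) * g) h1 := by
          refine MonoidHom.ext fun t => Subtype.ext ?_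
          show gg (g • x) * (c t).1 * (gg (g • x))⁻¹ =
            (gg (g • x) * g) * t.1 * (gg (g • x) * g)⁻¹
          rw [hc]
          group
        rw [h2] }
  obtain ⟨Ψ, hΨ⟩ := hU (DS n k rep) Φ (fun x y hxy z => by
    have := hE x y hxy
    rw [Subsingleton.elim z 0, map_zero, map_zero, map_zero, map_zero])
  constructor
  · refine Function.LeftInverse.injective (g := Ψ) fun y => ?_
    have h1 : Ψ.comp (DirectSum.toAddMonoid fun o : MulAction.orbitRel.Quotient Γ X =>
        (KNegFun n).hom (mdr k (MulAction.stabilizer Γ (rep o)).subtype)) =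
        AddMonoidHom.id _ := by
      refine DirectSum.addHom_ext fun o z => ?_
      show Ψ (DirectSum.toAddMonoid _ (io n k rep o z)) = io n k rep o z
      rw [DirectSum.toAddMonoid_of, hΨ]
      have h2 : rep o = (1 : Γ) • rep o := (one_smul _ _).symm
      refine (ps_eq n k rep hrep (hgg (rep o)) h2 z).trans ?_
      show io n k rep o ((KNegFun n).hom (mdr k (cj 1 h2)) z) = io n k rep o z
      have h3 : cj 1 h2 = MonoidHom.id _ := MonoidHom.ext fun t => Subtype.ext (by
        show 1 * t.1 * 1⁻¹ = t.1
        group)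
      rw [h3, mdr_id, (KNegFun n).hom_id]
      rfl
    exact DFunLike.congr_fun h1 y
  · intro y
    have h1 : (⊤ : AddSubgroup _) ≤ (DirectSum.toAddMonoid fun o :
        MulAction.orbitRel.Quotient Γ X =>
        (KNegFun n).hom (mdr k (MulAction.stabilizer Γ (rep o)).subtype)).range := by
      rw [← hG]
      refine iSup_le fun x => ?_
      rintro _ ⟨z, rfl⟩
      refine ⟨io n k rep (Quotient.mk'' x) ((KNegFun n).hom (mdr k (cj (gg x) (hgg x))) z),
        ?_⟩
      rw [DirectSum.toAddMonoid_of, fun_hom_hom, mdr_comp_mdr]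
      let c : Γ →* Γ := (MulAut.conj (gg x)).toMonoidHom
      have h2 : (MulAction.stabilizer Γ (rep (Quotient.mk'' x))).subtype.comp
          (cj (gg x) (hgg x)) = c.comp (MulAction.stabilizer Γ x).subtype := rfl
      rw [h2, ← mdr_comp_mdr, ← fun_hom_hom, inn_grp n k (gg x) c fun _ => rfl]
      rfl
    exact h1 (AddSubgroup.mem_top y)

end

end Pool.Agent.NegK.NT.EX47
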